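import Mathlib

set_option autoImplicit false

namespace Pool.Agent.H28.Flow

open Finset
open scoped Classical

/-- A multigraph with vertex set `V` and edge set `E`, without loops (parallel edges are allowed),
together with a fixed orientation `D`: the edge `e` is oriented from `tail e` to `head e`. -/
structure OrientedMultigraph (V E : Type) where
  /-- the tail of an edge -/
  tail : E → V
  /-- the head of an edge -/
  head : E → V
  /-- there are no loops -/
  loopless : ∀ e, tail e ≠ head e

variable {V E : Type} [Fintype E]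

/-- `f` is an `A`-flow: at every vertex the sum of `f` over the arcs leaving `v` equals the sum over
the arcs entering `v`. -/
def OrientedMultigraph.IsFlow {A : Type} [AddCommGroup A] (G : OrientedMultigraph V E)
    (f : E → A) : Prop :=
  ∀ v : V, ∑ e with G.tail e = v, f e = ∑ e with G.head e = v, f e

omit [Fintype E] in
/-- `S` is the edge set of a cycle: there are `n ≥ 2` distinct vertices `v 0, …, v (n-1)` and
distinct edges `e 0, …, e (n-1)` such that `e i` joins `v i` and `v (i+1)` (indices modulo `n`),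
and `S = {e 0, …, e (n-1)}`. -/
def OrientedMultigraph.IsCycleEdgeSet (G : OrientedMultigraph V E) (S : Set E) : Prop :=
  ∃ n : ℕ, 2 ≤ n ∧ ∃ (v : ZMod n → V) (e : ZMod n → E), Function.Injective v ∧
    Function.Injective e ∧
    (∀ i, (G.tail (e i) = v i ∧ G.head (e i) = v (i + 1)) ∨
      (G.head (e i) = v i ∧ G.tail (e i) = v (i + 1))) ∧
    S = Set.range e

omit [Fintype E] in
lemma OrientedMultigraph.not_isCycleEdgeSet_empty (G : OrientedMultigraph V E) :
    ¬ G.IsCycleEdgeSet ∅ := by
  rintro ⟨n, _, v, e, _, _, _, h⟩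
  have : e 0 ∈ (∅ : Set E) := by rw [h]; exact ⟨0, rfl⟩
  exact this

/-- The graph `𝓕(G, A)`: its vertices are the nowhere-zero `A`-flows, and `f ~ g` when the support
of `f - g` is the edge set of a cycle. -/
def OrientedMultigraph.groupFlowGraph (G : OrientedMultigraph V E) (A : Type) [AddCommGroup A] :
    SimpleGraph {f : E → A // G.IsFlow f ∧ ∀ e, f e ≠ 0} where
  Adj f g := G.IsCycleEdgeSet {e | (f.1 - g.1) e ≠ 0}
  symm := ⟨by
    intro f g h
    have : {e | (g.1 - f.1) e ≠ 0} = {e | (f.1 - g.1) e ≠ 0} := by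
      ext e
      simp only [Set.mem_ofPred_eq, Pi.sub_apply, ne_eq, sub_eq_zero]
      exact not_congr eq_comm
    rw [this]
    exact h⟩
  loopless := ⟨by
    intro f h
    apply G.not_isCycleEdgeSet_empty
    convert h
    ext e
    simp⟩

/-- The graph `𝓕(G, k)`: its vertices are the nowhere-zero `k`-flows (integer flows `f` with
`0 < |f e| < k` for every edge `e`), and `f ~ g` when the support of `f - g` is the edge set of a
cycle. -/
def OrientedMultigraph.intFlowGraph (G : OrientedMultigraph V E) (k : ℕ) :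
    SimpleGraph {f : E → ℤ // G.IsFlow f ∧ ∀ e, f e ≠ 0 ∧ |f e| < k} where
  Adj f g := G.IsCycleEdgeSet {e | (f.1 - g.1) e ≠ 0}
  symm := ⟨by
    intro f g h
    have : {e | (g.1 - f.1) e ≠ 0} = {e | (f.1 - g.1) e ≠ 0} := by
      ext e
      simp only [Set.mem_ofPred_eq, Pi.sub_apply, ne_eq, sub_eq_zero]
      exact not_congr eq_comm
    rw [this]
    exact h⟩
  loopless := ⟨by
    intro f h
    apply G.not_isCycleEdgeSet_empty
    convert h
    ext e
    simp⟩

/-- Reduction modulo `k` of a nowhere-zero `k`-flow. -/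
def OrientedMultigraph.reduce (G : OrientedMultigraph V E) (k : ℕ)
    (F : {f : E → ℤ // G.IsFlow f ∧ ∀ e, f e ≠ 0 ∧ |f e| < k}) :
    {f : E → ZMod k // G.IsFlow f ∧ ∀ e, f e ≠ 0} :=
  ⟨fun e => (F.1 e : ZMod k), by
    intro v
    have := F.2.1 v
    have h2 := congrArg (Int.cast : ℤ → ZMod k) this
    push_cast at h2
    exact h2, by
    intro e he
    have h1 := (ZMod.intCast_zmod_eq_zero_iff_dvd _ _).1 he
    exact (F.2.2 e).1 (Int.eq_zero_of_abs_lt_dvd h1 (F.2.2 e).2)⟩

end Pool.Agent.H28.Flow
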