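import Mathlib
import Pool.Agent.H28.Flow.Defs

set_option autoImplicit false

namespace Pool.Agent.H28.Flow

open Finset
open scoped Classical

variable {V E : Type} [Fintype V] [Fintype E] (G : OrientedMultigraph V E)

/-- net outflow -/
noncomputable def net {A : Type} [AddCommGroup A] (f : E → A) (v : V) : A :=
  ∑ e with G.tail e = v, f e - ∑ e with G.head e = v, f e

omit [Fintype V] in
lemma isFlow_iff {A : Type} [AddCommGroup A] (f : E → A) :
    G.IsFlow f ↔ ∀ v, net G f v = 0 := by
  unfold OrientedMultigraph.IsFlow net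
  simp only [sub_eq_zero]

/-- integer indicator -/
noncomputable def ic (p : Prop) : ℤ := if p then 1 else 0

lemma ic_true {p : Prop} (h : p) : ic p = 1 := if_pos h
lemma ic_false {p : Prop} (h : ¬ p) : ic p = 0 := if_neg h
lemma ic_nonneg (p : Prop) : 0 ≤ ic p := by unfold ic; split_ifs <;> norm_num

omit [Fintype V] [Fintype E] in
lemma ic_sum_mem (S : Finset V) (a : V) : ∑ v ∈ S, ic (a = v) = ic (a ∈ S) := by
  by_cases h : a ∈ S
  · rw [ic_true h, sum_eq_single_of_mem a h (fun b _ hb => ic_false (fun e => hb e.symm))]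
    exact ic_true rfl
  · rw [ic_false h]
    exact sum_eq_zero (fun b hb => ic_false (fun e => h (e ▸ hb)))

omit [Fintype V] in
lemma card_eq_sum_ic (F : Finset E) : (F.card : ℤ) = ∑ e, ic (e ∈ F) := by
  have : ∑ e, ic (e ∈ F) = ∑ e ∈ F, (1 : ℤ) := by
    rw [← sum_filter_add_sum_filter_not univ (fun e => e ∈ F)]
    have h1 : ∑ e with e ∉ F, ic (e ∈ F) = 0 :=
      sum_eq_zero (fun e he => ic_false (mem_filter.1 he).2)
    have h2 : ∑ e with e ∈ F, ic (e ∈ F) = ∑ e with e ∈ F, (1 : ℤ) :=
      sum_congr rfl (fun e he => ic_true (mem_filter.1 he).2)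
    rw [h1, h2, add_zero]
    congr 1
    ext e
    simp
  rw [this]
  simp

omit [Fintype V] in
lemma net_eq (f : E → ℤ) (v : V) :
    net G f v = ∑ e, f e * (ic (G.tail e = v) - ic (G.head e = v)) := by
  unfold net
  rw [sum_filter, sum_filter, ← sum_sub_distrib]
  apply sum_congr rfl
  intro e _
  unfold ic
  split_ifs <;> ring

lemma sum_net (f : E → ℤ) (S : Finset V) :
    ∑ v ∈ S, net G f v = ∑ e, f e * (ic (G.tail e ∈ S) - ic (G.head e ∈ S)) := by
  simp only [net_eq]
  rw [sum_comm]
  apply sum_congr rfl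
  intro e _
  rw [← mul_sum, sum_sub_distrib]
  rw [ic_sum_mem, ic_sum_mem]

lemma sum_net_univ (f : E → ℤ) : ∑ v, net G f v = 0 := by
  rw [sum_net]
  apply sum_eq_zero
  intro e _
  rw [ic_true (mem_univ _), ic_true (mem_univ _)]
  ring

/-- A Hall type theorem: 0-1 functions on the edges with prescribed net outflow and prescribed
values on some edges. -/
theorem orient (b : V → ℤ) (Wm Wp : E → Prop) (hdisj : ∀ e, Wm e → ¬ Wp e)
    (hb : ∑ v, b v = 0)
    (hcut : ∀ S : Finset V,
      ∑ e, (ic (G.tail e ∈ S ∧ G.head e ∉ S ∧ Wm e) + ic (G.head e ∈ S ∧ G.tail e ∉ S ∧ Wp e)) ≤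
        ∑ v ∈ S, b v + ∑ e, ic (G.head e ∈ S ∧ G.tail e ∉ S)) :
    ∃ x : E → ℤ, (∀ e, x e = 0 ∨ x e = 1) ∧ (∀ e, Wm e → x e = 1) ∧ (∀ e, Wp e → x e = 0) ∧
      ∀ v, net G x v = b v := by
  -- prescribed number of edges assigned to a vertex
  obtain ⟨ind, hind⟩ : ∃ ind : V → ℤ, ind = fun v => ∑ e, ic (G.head e = v) := ⟨_, rfl⟩
  have hnn : ∀ v, 0 ≤ b v + ind v := by
    intro v
    have h1 := hcut {v}
    rw [sum_singleton] at h1
    have h2 : 0 ≤ ∑ e, (ic (G.tail e ∈ ({v} : Finset V) ∧ G.head e ∉ ({v} : Finset V) ∧ Wm e) +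
        ic (G.head e ∈ ({v} : Finset V) ∧ G.tail e ∉ ({v} : Finset V) ∧ Wp e)) :=
      sum_nonneg (fun e _ => add_nonneg (ic_nonneg _) (ic_nonneg _))
    have h3 : ∑ e, ic (G.head e ∈ ({v} : Finset V) ∧ G.tail e ∉ ({v} : Finset V)) ≤ ind v := by
      rw [hind]
      apply sum_le_sum
      intro e _
      unfold ic
      split_ifs with p q
      · exact le_rfl
      · exact absurd (mem_singleton.1 p.1) q
      · norm_num
      · exact le_rfl
    linarith
  obtain ⟨m, hm⟩ : ∃ m : V → ℕ, ∀ v, (m v : ℤ) = b v + ind v :=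
    ⟨fun v => (b v + ind v).toNat, fun v => Int.toNat_of_nonneg (hnn v)⟩
  -- allowed ends
  obtain ⟨t, ht⟩ : ∃ t : E → Finset V, t = fun e => if Wm e then {G.tail e} else
    if Wp e then {G.head e} else {G.tail e, G.head e} := ⟨_, rfl⟩
  have ht1 : ∀ e, Wm e → t e = {G.tail e} := by intro e h; rw [ht]; simp [h]
  have ht2 : ∀ e, Wp e → t e = {G.head e} := by
    intro e h
    have : ¬ Wm e := fun h' => hdisj e h' h
    rw [ht]; simp [h, this]
  have ht3 : ∀ e, ¬ Wm e → ¬ Wp e → t e = {G.tail e, G.head e} := by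
    intro e h h'; rw [ht]; simp [h, h']
  have hsub : ∀ e, t e ⊆ {G.tail e, G.head e} := by
    intro e
    by_cases h1 : Wm e
    · rw [ht1 e h1]; simp
    · by_cases h2 : Wp e
      · rw [ht2 e h2]; simp
      · rw [ht3 e h1 h2]
  -- Hall's condition
  obtain ⟨T, hT⟩ : ∃ T : E → Finset (Σ v : V, Fin (m v)),
    T = fun e => (t e).sigma (fun _ => univ) := ⟨_, rfl⟩
  have hall : ∀ F : Finset E, F.card ≤ (F.biUnion T).card := by
    intro F
    obtain ⟨S, hS⟩ : ∃ S : Finset V, S = F.biUnion t := ⟨_, rfl⟩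
    have h1 : F.biUnion T = S.sigma (fun v => (univ : Finset (Fin (m v)))) := by
      ext ⟨v, i⟩
      rw [hT, hS]
      simp only [mem_biUnion, mem_sigma, mem_univ, and_true]
    rw [h1, card_sigma]
    simp only [card_univ, Fintype.card_fin]
    have h2 : (F.card : ℤ) ≤ ∑ e, (ic (G.tail e ∈ S ∧ G.head e ∈ S) +
        (ic (G.tail e ∈ S ∧ G.head e ∉ S ∧ Wm e) +
          ic (G.head e ∈ S ∧ G.tail e ∉ S ∧ Wp e))) := by
      rw [card_eq_sum_ic]
      apply sum_le_sum
      intro e _
      by_cases he : e ∈ F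
      · rw [ic_true he]
        have hte : t e ⊆ S := by rw [hS]; exact subset_biUnion_of_mem t he
        have n1 := ic_nonneg (G.tail e ∈ S ∧ G.head e ∈ S)
        have n2 := ic_nonneg (G.tail e ∈ S ∧ G.head e ∉ S ∧ Wm e)
        have n3 := ic_nonneg (G.head e ∈ S ∧ G.tail e ∉ S ∧ Wp e)
        by_cases w1 : Wm e
        · rw [ht1 e w1] at hte
          have hta : G.tail e ∈ S := hte (mem_singleton_self _)
          by_cases hh : G.head e ∈ S
          · have := ic_true (p := (G.tail e ∈ S ∧ G.head e ∈ S)) ⟨hta, hh⟩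
            linarith
          · have := ic_true (p := (G.tail e ∈ S ∧ G.head e ∉ S ∧ Wm e)) ⟨hta, hh, w1⟩
            linarith
        · by_cases w2 : Wp e
          · rw [ht2 e w2] at hte
            have hta : G.head e ∈ S := hte (mem_singleton_self _)
            by_cases hh : G.tail e ∈ S
            · have := ic_true (p := (G.tail e ∈ S ∧ G.head e ∈ S)) ⟨hh, hta⟩
              linarith
            · have := ic_true (p := (G.head e ∈ S ∧ G.tail e ∉ S ∧ Wp e)) ⟨hta, hh, w2⟩
              linarith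
          · rw [ht3 e w1 w2] at hte
            have hh : G.tail e ∈ S := hte (by simp)
            have hta : G.head e ∈ S := hte (by simp)
            have := ic_true (p := (G.tail e ∈ S ∧ G.head e ∈ S)) ⟨hh, hta⟩
            linarith
      · rw [ic_false he]
        exact add_nonneg (ic_nonneg _) (add_nonneg (ic_nonneg _) (ic_nonneg _))
    rw [sum_add_distrib] at h2
    have h3 := hcut S
    have h4 : ∑ v ∈ S, ind v = ∑ e, ic (G.tail e ∈ S ∧ G.head e ∈ S) +
        ∑ e, ic (G.head e ∈ S ∧ G.tail e ∉ S) := by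
      rw [hind]
      simp only
      rw [sum_comm, ← sum_add_distrib]
      apply sum_congr rfl
      intro e _
      rw [ic_sum_mem]
      unfold ic
      by_cases p : G.head e ∈ S <;> by_cases q : G.tail e ∈ S <;> simp [p, q]
    have h5 : ((∑ v ∈ S, m v : ℕ) : ℤ) = ∑ v ∈ S, b v + ∑ v ∈ S, ind v := by
      push_cast
      rw [← sum_add_distrib]
      exact sum_congr rfl (fun v _ => hm v)
    have h6 : (F.card : ℤ) ≤ ((∑ v ∈ S, m v : ℕ) : ℤ) := by
      rw [h5, h4]; linarith
    exact_mod_cast h6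
  obtain ⟨φ, hφi, hφ⟩ := (all_card_le_biUnion_card_iff_exists_injective T).1 hall
  -- bijectivity
  have hcard : Fintype.card E = Fintype.card (Σ v : V, Fin (m v)) := by
    rw [Fintype.card_sigma]
    simp only [Fintype.card_fin]
    have h1 : ((∑ v, m v : ℕ) : ℤ) = ∑ v, b v + ∑ v, ind v := by
      push_cast
      rw [← sum_add_distrib]
      exact sum_congr rfl (fun v _ => hm v)
    have h2 : ∑ v, ind v = (Fintype.card E : ℤ) := by
      rw [hind]
      simp only
      rw [sum_comm]
      have : ∀ e : E, ∑ v : V, ic (G.head e = v) = 1 := by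
        intro e
        rw [ic_sum_mem, ic_true (mem_univ _)]
      simp only [this]
      simp
    rw [hb, h2] at h1
    have h3 : (∑ v, m v) = Fintype.card E := by
      have : ((∑ v, m v : ℕ) : ℤ) = (Fintype.card E : ℤ) := by rw [h1]; ring
      exact_mod_cast this
    rw [h3]
  have hbij : Function.Bijective φ :=
    (Fintype.bijective_iff_injective_and_card φ).2 ⟨hφi, hcard⟩
  have hφt : ∀ e, (φ e).1 ∈ t e := by
    intro e
    have := hφ e
    rw [hT] at this
    exact (mem_sigma.1 this).1
  refine ⟨fun e => ic ((φ e).1 = G.tail e), ?_, ?_, ?_, ?_⟩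
  · intro e
    by_cases h : (φ e).1 = G.tail e
    · right; exact ic_true h
    · left; exact ic_false h
  · intro e he
    have := hφt e
    rw [ht1 e he, mem_singleton] at this
    exact ic_true this
  · intro e he
    have := hφt e
    rw [ht2 e he, mem_singleton] at this
    apply ic_false
    rw [this]
    exact fun h => G.loopless e h.symm
  · intro v
    -- number of edges assigned to v
    have h1 : ∑ e, ic ((φ e).1 = v) = (m v : ℤ) := by
      have h2 : ∑ e, ic ((φ e).1 = v) = ∑ s : (Σ v : V, Fin (m v)), ic (s.1 = v) :=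
        Function.Bijective.sum_comp hbij (fun s : (Σ v : V, Fin (m v)) => ic (s.1 = v))
      rw [h2, Fintype.sum_sigma]
      have h3 : ∀ w : V, ∑ i : Fin (m w), ic (w = v) = if w = v then (m w : ℤ) else 0 := by
        intro w
        rw [sum_const, card_univ, Fintype.card_fin]
        unfold ic
        split_ifs <;> simp
      simp only [h3]
      rw [sum_ite_eq' univ v (fun w => (m w : ℤ)), if_pos (mem_univ _)]
    have h4 : ∀ e, ic ((φ e).1 = v) = ic ((φ e).1 = G.tail e) * ic (G.tail e = v) +
        (1 - ic ((φ e).1 = G.tail e)) * ic (G.head e = v) := by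
      intro e
      have h5 := hsub e (hφt e)
      rw [mem_insert, mem_singleton] at h5
      by_cases p : (φ e).1 = G.tail e
      · rw [ic_true p, p]; ring
      · have q : (φ e).1 = G.head e := h5.resolve_left p
        rw [ic_false p, q]; ring
    have h6 : net G (fun e => ic ((φ e).1 = G.tail e)) v = (m v : ℤ) - ind v := by
      rw [net_eq, ← h1, hind]
      simp only [h4]
      rw [← sum_sub_distrib]
      apply sum_congr rfl
      intro e _
      ring
    rw [h6, hm v]
    ring

end Pool.Agent.H28.Flow
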