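import Mathlib
import Pool.Agent.H28.Flow.Defs
import Pool.Agent.H28.Flow.Orient

set_option autoImplicit false

namespace Pool.Agent.H28.Flow

open Finset
open scoped Classical

variable {V E : Type}

/-- cyclic sequence of vertices and edges with signs -/
def CycData (G : OrientedMultigraph V E) (n : ℕ) (v : ZMod n → V) (e : ZMod n → E)
    (s : ZMod n → ℤ) : Prop :=
  Function.Injective v ∧ Function.Injective e ∧
  ∀ i, (s i = 1 ∧ G.tail (e i) = v i ∧ G.head (e i) = v (i + 1)) ∨
    (s i = -1 ∧ G.head (e i) = v i ∧ G.tail (e i) = v (i + 1))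

lemma exists_cycData (G : OrientedMultigraph V E) (S : Set E) (h : G.IsCycleEdgeSet S) :
    ∃ (n : ℕ) (v : ZMod n → V) (e : ZMod n → E) (s : ZMod n → ℤ), 2 ≤ n ∧ CycData G n v e s ∧
      S = Set.range e := by
  obtain ⟨n, hn, v, e, hv, he, hve, hS⟩ := h
  refine ⟨n, v, e, fun i => if G.tail (e i) = v i ∧ G.head (e i) = v (i + 1) then 1 else -1,
    hn, ⟨hv, he, ?_⟩, hS⟩
  intro i
  by_cases h : G.tail (e i) = v i ∧ G.head (e i) = v (i + 1)
  · left
    exact ⟨if_pos h, h⟩
  · right
    exact ⟨if_neg h, (hve i).resolve_left h⟩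

lemma CycData.isCycleEdgeSet {G : OrientedMultigraph V E} {n : ℕ} {v : ZMod n → V}
    {e : ZMod n → E} {s : ZMod n → ℤ} (hn : 2 ≤ n) (h : CycData G n v e s) :
    G.IsCycleEdgeSet (Set.range e) := by
  refine ⟨n, hn, v, e, h.1, h.2.1, ?_, rfl⟩
  intro i
  rcases h.2.2 i with h1 | h1
  · left; exact h1.2
  · right; exact h1.2

lemma CycData.reverse {G : OrientedMultigraph V E} {n : ℕ} {v : ZMod n → V}
    {e : ZMod n → E} {s : ZMod n → ℤ} (h : CycData G n v e s) :
    CycData G n (fun i => v (-i)) (fun i => e (-i - 1)) (fun i => - s (-i - 1)) := by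
  refine ⟨?_, ?_, ?_⟩
  · intro i j hij
    exact neg_injective (h.1 hij)
  · intro i j hij
    have := h.2.1 hij
    have h2 : -i = -j := by linear_combination this
    exact neg_injective h2
  · intro i
    have e1 : (-i - 1 : ZMod n) + 1 = -i := by ring
    have e2 : (-(i + 1) : ZMod n) = -i - 1 := by ring
    rcases h.2.2 (-i - 1) with ⟨h1, h2, h3⟩ | ⟨h1, h2, h3⟩
    · right
      refine ⟨by simp only; rw [h1], ?_, ?_⟩
      · simp only; rw [h3, e1]
      · simp only; rw [h2, e2]
    · left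
      refine ⟨by simp only; rw [h1]; norm_num, ?_, ?_⟩
      · simp only; rw [h3, e1]
      · simp only; rw [h2, e2]

/-- signed indicator function of a cycle -/
noncomputable def chi {n : ℕ} [NeZero n] (e : ZMod n → E) (s : ZMod n → ℤ) (x : E) : ℤ :=
  ∑ i, s i * ic (e i = x)

lemma chi_e {n : ℕ} [NeZero n] {e : ZMod n → E} (he : Function.Injective e) (s : ZMod n → ℤ)
    (i : ZMod n) : chi e s (e i) = s i := by
  unfold chi
  rw [sum_eq_single_of_mem i (mem_univ i)]
  · rw [ic_true rfl, mul_one]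
  · intro j _ hj
    rw [ic_false (fun h => hj (he h)), mul_zero]

lemma chi_not {n : ℕ} [NeZero n] {e : ZMod n → E} (s : ZMod n → ℤ) {x : E}
    (hx : x ∉ Set.range e) : chi e s x = 0 := by
  unfold chi
  apply sum_eq_zero
  intro i _
  rw [ic_false (fun h => hx ⟨i, h⟩), mul_zero]

variable [Fintype E]

lemma sum_mul_ic (f : E → ℤ) (a : E) : ∑ x, f x * ic (a = x) = f a := by
  rw [sum_eq_single_of_mem a (mem_univ a)]
  · rw [ic_true rfl, mul_one]
  · intro j _ hj
    rw [ic_false (fun h => hj h.symm), mul_zero]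

/-- pairing of `chi` with a function -/
lemma sum_chi_mul {n : ℕ} [NeZero n] (e : ZMod n → E) (s : ZMod n → ℤ) (f : E → ℤ) :
    ∑ x, chi e s x * f x = ∑ i, s i * f (e i) := by
  unfold chi
  simp only [sum_mul]
  rw [sum_comm]
  apply sum_congr rfl
  intro i _
  rw [← sum_mul_ic f (e i), mul_sum]
  apply sum_congr rfl
  intro x _
  ring

lemma CycData.sign_mul {G : OrientedMultigraph V E} {n : ℕ} {v : ZMod n → V}
    {e : ZMod n → E} {s : ZMod n → ℤ} (h : CycData G n v e s) (φ : V → ℤ) (i : ZMod n) :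
    s i * (φ (G.tail (e i)) - φ (G.head (e i))) = φ (v i) - φ (v (i + 1)) := by
  rcases h.2.2 i with ⟨h1, h2, h3⟩ | ⟨h1, h2, h3⟩
  · rw [h1, h2, h3]; ring
  · rw [h1, h2, h3]; ring

lemma CycData.net_chi {G : OrientedMultigraph V E} {n : ℕ} [NeZero n] {v : ZMod n → V}
    {e : ZMod n → E} {s : ZMod n → ℤ} (h : CycData G n v e s) (w : V) :
    net G (chi e s) w = 0 := by
  rw [net_eq, sum_chi_mul]
  have : ∀ i, s i * (ic (G.tail (e i) = w) - ic (G.head (e i) = w)) =
      ic (v i = w) - ic (v (i + 1) = w) := fun i => h.sign_mul (fun u => ic (u = w)) i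
  simp only [this]
  rw [sum_sub_distrib]
  have h2 : ∑ i, ic (v (i + 1) = w) = ∑ i, ic (v i = w) :=
    Equiv.sum_comp (Equiv.addRight (1 : ZMod n)) (fun i => ic (v i = w))
  rw [h2, sub_self]

lemma net_add (G : OrientedMultigraph V E) (f g : E → ℤ) (c : ℤ) (w : V) :
    net G (fun x => f x + c * g x) w = net G f w + c * net G g w := by
  rw [net_eq, net_eq, net_eq, mul_sum, ← sum_add_distrib]
  apply sum_congr rfl
  intro x _
  ring

lemma isFlow_add {G : OrientedMultigraph V E} {f g : E → ℤ} (hf : G.IsFlow f) (hg : G.IsFlow g)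
    (c : ℤ) : G.IsFlow (fun x => f x + c * g x) := by
  rw [isFlow_iff] at *
  intro w
  rw [net_add, hf w, hg w]
  ring

lemma CycData.isFlow_chi {G : OrientedMultigraph V E} {n : ℕ} [NeZero n] {v : ZMod n → V}
    {e : ZMod n → E} {s : ZMod n → ℤ} (h : CycData G n v e s) : G.IsFlow (chi e s) := by
  rw [isFlow_iff]
  exact h.net_chi

/-- A flow supported on a cycle is constant along the cycle. -/
lemma CycData.const {A : Type} [AddCommGroup A] {G : OrientedMultigraph V E} {n : ℕ}
    [NeZero n] {v : ZMod n → V}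
    {e : ZMod n → E} {s : ZMod n → ℤ} (h : CycData G n v e s) (d : E → A) (hd : G.IsFlow d)
    (hsupp : ∀ x, x ∉ Set.range e → d x = 0) : ∃ c : A, ∀ i, s i • d (e i) = c := by
  -- net flow
  have key : ∀ w, net G d w = ∑ i, (ic (v i = w) - ic (v (i + 1) = w)) • (s i • d (e i)) := by
    intro w
    unfold net
    rw [sum_filter, sum_filter, ← sum_sub_distrib]
    have h1 : ∀ x, (if G.tail x = w then d x else 0) - (if G.head x = w then d x else 0) =
        (ic (G.tail x = w) - ic (G.head x = w)) • d x := by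
      intro x
      unfold ic
      split_ifs <;> simp
    simp only [h1]
    have h2 : ∑ x, (ic (G.tail x = w) - ic (G.head x = w)) • d x =
        ∑ x ∈ univ.image e, (ic (G.tail x = w) - ic (G.head x = w)) • d x := by
      symm
      apply sum_subset (subset_univ _)
      intro x _ hx
      rw [hsupp x, smul_zero]
      rintro ⟨i, rfl⟩
      exact hx (mem_image_of_mem e (mem_univ i))
    rw [h2, sum_image (fun i _ j _ hij => h.2.1 hij)]
    apply sum_congr rfl
    intro i _
    have h3 : s i * (ic (G.tail (e i) = w) - ic (G.head (e i) = w)) =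
        ic (v i = w) - ic (v (i + 1) = w) := h.sign_mul (fun u => ic (u = w)) i
    rw [← h3, smul_smul]
    have h4 : s i * s i = 1 := by
      rcases h.2.2 i with h5 | h5
      · rw [h5.1]; norm_num
      · rw [h5.1]; norm_num
    congr 1
    linear_combination (-(ic (G.tail (e i) = w) - ic (G.head (e i) = w))) * h4
  have hstep : ∀ j, s (j + 1) • d (e (j + 1)) = s j • d (e j) := by
    intro j
    have h1 := (isFlow_iff G d).1 hd (v (j + 1))
    rw [key] at h1
    simp only [sub_smul] at h1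
    rw [sum_sub_distrib] at h1
    rw [sum_eq_single_of_mem (j + 1) (mem_univ _), sum_eq_single_of_mem j (mem_univ _)] at h1
    · rw [ic_true rfl, one_smul, one_smul] at h1
      exact sub_eq_zero.1 h1
    · intro i _ hi
      rw [ic_false (fun h6 => hi (add_right_cancel (h.1 h6))), zero_smul]
    · intro i _ hi
      rw [ic_false (fun h6 => hi (h.1 h6)), zero_smul]
  refine ⟨s 0 • d (e 0), ?_⟩
  intro i
  have h3 : ∀ m : ℕ, s (m : ZMod n) • d (e (m : ZMod n)) = s 0 • d (e 0) := by
    intro m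
    induction m with
    | zero => simp
    | succ m ih =>
      rw [← ih, Nat.cast_succ]
      exact hstep _
  have h4 := h3 i.val
  rwa [ZMod.natCast_zmod_val] at h4

/-- A nonzero integer flow contains a directed cycle. -/
theorem exists_cycle_of_flow [Fintype V] (G : OrientedMultigraph V E) (h : E → ℤ)
    (hf : G.IsFlow h) (hne : ∃ x, h x ≠ 0) :
    ∃ (n : ℕ) (v : ZMod n → V) (e : ZMod n → E) (s : ZMod n → ℤ), 2 ≤ n ∧ CycData G n v e s ∧
      ∀ i, 0 < s i * h (e i) := by
  -- x leaves u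
  obtain ⟨out, hout⟩ : ∃ out : V → E → Prop, ∀ u x, out u x ↔ (G.tail x = u ∧ 0 < h x) ∨
      (G.head x = u ∧ h x < 0) := ⟨_, fun _ _ => Iff.rfl⟩
  obtain ⟨inn, hinn⟩ : ∃ inn : V → E → Prop, ∀ u x, inn u x ↔ (G.head x = u ∧ 0 < h x) ∨
      (G.tail x = u ∧ h x < 0) := ⟨_, fun _ _ => Iff.rfl⟩
  have hcont : ∀ u x, inn u x → ∃ y, out u y := by
    intro u x hx
    by_contra hno
    push Not at hno
    have h1 := (isFlow_iff G h).1 hf u
    rw [net_eq] at h1
    have h2 : ∀ y, h y * (ic (G.tail y = u) - ic (G.head y = u)) ≤ 0 := by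
      intro y
      have h3 := hno y
      rw [hout] at h3
      push Not at h3
      by_cases p : G.tail y = u
      · have q : G.head y ≠ u := fun q => G.loopless y (p.trans q.symm)
        rw [ic_true p, ic_false q]
        have := h3.1 p
        linarith
      · rw [ic_false p]
        by_cases q : G.head y = u
        · rw [ic_true q]
          have := h3.2 q
          linarith
        · rw [ic_false q]; simp
    have h4 : h x * (ic (G.tail x = u) - ic (G.head x = u)) < 0 := by
      rw [hinn] at hx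
      rcases hx with ⟨p, q⟩ | ⟨p, q⟩
      · have p' : G.tail x ≠ u := fun p' => G.loopless x (p'.trans p.symm)
        rw [ic_true p, ic_false p']
        linarith
      · have p' : G.head x ≠ u := fun p' => G.loopless x (p.trans p'.symm)
        rw [ic_true p, ic_false p']
        linarith
    have h5 : ∑ y, h y * (ic (G.tail y = u) - ic (G.head y = u)) < 0 :=
      sum_neg' (fun y _ => h2 y) ⟨x, mem_univ x, h4⟩
    linarith
  -- choice
  obtain ⟨U, hU⟩ : ∃ U : Type, U = {u : V // ∃ y, out u y} := ⟨_, rfl⟩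
  subst hU
  have hch : ∀ u : {u : V // ∃ y, out u y}, ∃ (x : E) (w : {u : V // ∃ y, out u y}),
      out u.1 x ∧ inn w.1 x := by
    rintro ⟨u, x, hx⟩
    rw [hout] at hx
    rcases hx with ⟨p, q⟩ | ⟨p, q⟩
    · have h1 : inn (G.head x) x := by rw [hinn]; exact Or.inl ⟨rfl, q⟩
      exact ⟨x, ⟨G.head x, hcont _ x h1⟩, by rw [hout]; exact Or.inl ⟨p, q⟩, h1⟩
    · have h1 : inn (G.tail x) x := by rw [hinn]; exact Or.inr ⟨rfl, q⟩
      exact ⟨x, ⟨G.tail x, hcont _ x h1⟩, by rw [hout]; exact Or.inr ⟨p, q⟩, h1⟩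
  choose ed nx hed hnx using hch
  -- a starting vertex
  obtain ⟨u₀⟩ : Nonempty {u : V // ∃ y, out u y} := by
    obtain ⟨x, hx⟩ := hne
    rcases lt_or_gt_of_ne hx with hx | hx
    · exact ⟨⟨G.head x, x, by rw [hout]; exact Or.inr ⟨rfl, hx⟩⟩⟩
    · exact ⟨⟨G.tail x, x, by rw [hout]; exact Or.inl ⟨rfl, hx⟩⟩⟩
  -- a periodic point
  obtain ⟨a, b, hab, hab'⟩ := Finite.exists_ne_map_eq_of_infinite (fun m : ℕ => nx^[m] u₀)
  obtain ⟨u₁, p, hp0, hper⟩ : ∃ (u₁ : {u : V // ∃ y, out u y}) (p : ℕ), 0 < p ∧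
      Function.IsPeriodicPt nx p u₁ := by
    rcases lt_or_gt_of_ne hab with hlt | hlt
    · refine ⟨nx^[a] u₀, b - a, by omega, ?_⟩
      unfold Function.IsPeriodicPt Function.IsFixedPt
      rw [← Function.iterate_add_apply, Nat.sub_add_cancel hlt.le]
      exact hab'.symm
    · refine ⟨nx^[b] u₀, a - b, by omega, ?_⟩
      unfold Function.IsPeriodicPt Function.IsFixedPt
      rw [← Function.iterate_add_apply, Nat.sub_add_cancel hlt.le]
      exact hab'
  obtain ⟨n, hn⟩ : ∃ n, n = Function.minimalPeriod nx u₁ := ⟨_, rfl⟩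
  have hn0 : 0 < n := by rw [hn]; exact hper.minimalPeriod_pos hp0
  have hnp : nx^[n] u₁ = u₁ := by rw [hn]; exact Function.iterate_minimalPeriod
  have : NeZero n := ⟨hn0.ne'⟩
  have hinj : ∀ i j : ℕ, i < n → j < n → nx^[i] u₁ = nx^[j] u₁ → i = j := by
    intro i j hi hj hij
    rw [hn] at hi hj
    exact (Function.iterate_injOn_Iio_minimalPeriod (Set.mem_Iio.2 hi) (Set.mem_Iio.2 hj) hij)
  have hsucc : ∀ i : ZMod n, nx^[(i + 1).val] u₁ = nx (nx^[i.val] u₁) := by
    intro i
    rw [← Function.iterate_succ_apply' nx]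
    have h1 : (i + 1).val = (i.val + 1) % n := by
      have := ZMod.val_natCast n (i.val + 1)
      rw [← this]
      congr 1
      push_cast
      rw [ZMod.natCast_zmod_val]
    have h2 : i.val < n := ZMod.val_lt i
    rcases Nat.lt_or_ge (i.val + 1) n with h3 | h3
    · rw [h1, Nat.mod_eq_of_lt h3]
    · have h4 : i.val.succ = n := by omega
      have h5 : i.val + 1 = n := by omega
      rw [h1, h4, h5, Nat.mod_self, Function.iterate_zero, id, hnp]
  have hfrom : ∀ i : ZMod n, out (nx^[i.val] u₁).1 (ed (nx^[i.val] u₁)) := fun i => hed _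
  have hto : ∀ i : ZMod n, inn (nx^[(i + 1).val] u₁).1 (ed (nx^[i.val] u₁)) := by
    intro i
    rw [hsucc]
    exact hnx _
  have hn2 : 2 ≤ n := by
    rcases Nat.lt_or_ge n 2 with h1 | h1
    · exfalso
      have h2 : n = 1 := by omega
      have h3 : nx u₁ = u₁ := by
        have := hnp
        rw [h2, Function.iterate_one] at this
        exact this
      have h4 := hed u₁
      have h5 := hnx u₁
      rw [h3] at h5
      rw [hout] at h4
      rw [hinn] at h5
      rcases h4 with ⟨p1, p2⟩ | ⟨p1, p2⟩ <;> rcases h5 with ⟨q1, q2⟩ | ⟨q1, q2⟩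
      · exact G.loopless _ (p1.trans q1.symm)
      · exact lt_asymm p2 q2
      · exact lt_asymm p2 q2
      · exact G.loopless _ (q1.trans p1.symm)
    · exact h1
  refine ⟨n, fun i => (nx^[i.val] u₁).1, fun i => ed (nx^[i.val] u₁),
    fun i => if 0 < h (ed (nx^[i.val] u₁)) then 1 else -1, hn2, ⟨?_, ?_, ?_⟩, ?_⟩
  · intro i j hij
    have h1 := hinj _ _ (ZMod.val_lt i) (ZMod.val_lt j) (Subtype.ext hij)
    exact ZMod.val_injective n h1
  · intro i j hij
    simp only at hij
    have h1 := hfrom i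
    have h2 := hfrom j
    rw [← hij] at h2
    have h3 : (nx^[i.val] u₁).1 = (nx^[j.val] u₁).1 := by
      rw [hout] at h1 h2
      rcases h1 with ⟨p1, p2⟩ | ⟨p1, p2⟩ <;> rcases h2 with ⟨q1, q2⟩ | ⟨q1, q2⟩
      · exact p1.symm.trans q1
      · exact absurd p2 (lt_asymm q2)
      · exact absurd p2 (lt_asymm q2)
      · exact p1.symm.trans q1
    have h1 := hinj _ _ (ZMod.val_lt i) (ZMod.val_lt j) (Subtype.ext h3)
    exact ZMod.val_injective n h1
  · intro i
    have h1 := hfrom i
    have h2 := hto i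
    rw [hout] at h1
    rw [hinn] at h2
    simp only
    rcases h1 with ⟨p1, p2⟩ | ⟨p1, p2⟩ <;> rcases h2 with ⟨q1, q2⟩ | ⟨q1, q2⟩
    · left
      exact ⟨if_pos p2, p1, q1⟩
    · exact absurd p2 (lt_asymm q2)
    · exact absurd p2 (lt_asymm q2)
    · right
      exact ⟨if_neg (lt_asymm p2), p1, q1⟩
  · intro i
    have h1 := hfrom i
    rw [hout] at h1
    simp only
    rcases h1 with ⟨p1, p2⟩ | ⟨p1, p2⟩
    · rw [if_pos p2]; linarith
    · rw [if_neg (lt_asymm p2)]; linarith

end Pool.Agent.H28.Flow
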