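import Mathlib
import Pool.Agent.H28.Flow.Defs
import Pool.Agent.H28.Flow.Orient
import Pool.Agent.H28.Flow.Cycle

set_option autoImplicit false

namespace Pool.Agent.H28.Flow

open Finset
open scoped Classical

variable {V E : Type} [Fintype E]

/-- nowhere-zero `k`-flow -/
def Legal (G : OrientedMultigraph V E) (k : ℕ) (F : E → ℤ) : Prop :=
  G.IsFlow F ∧ ∀ e, F e ≠ 0 ∧ |F e| < k

lemma adj_of {G : OrientedMultigraph V E} {k : ℕ} {n : ℕ} (hn : 2 ≤ n) {v : ZMod n → V}
    {e : ZMod n → E} {s : ZMod n → ℤ} (hC : CycData G n v e s) (F F' : E → ℤ)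
    (hF : Legal G k F) (hF' : Legal G k F')
    (h1 : ∀ i, F (e i) ≠ F' (e i)) (h2 : ∀ x, x ∉ Set.range e → F x = F' x) :
    (G.intFlowGraph k).Adj ⟨F, hF⟩ ⟨F', hF'⟩ := by
  change G.IsCycleEdgeSet {x | (F - F') x ≠ 0}
  have : {x | (F - F') x ≠ 0} = Set.range e := by
    ext x
    simp only [Set.mem_ofPred_eq, Pi.sub_apply, ne_eq, sub_eq_zero]
    constructor
    · intro h
      by_contra h3
      exact h (h2 x h3)
    · rintro ⟨i, rfl⟩
      exact h1 i
  rw [this]
  exact hC.isCycleEdgeSet hn

/-- The fibres of the reduction modulo `k` are connected. -/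
theorem fibre [Fintype V] (G : OrientedMultigraph V E) (k : ℕ) :
    ∀ (N : ℕ) (F F' : E → ℤ) (hF : Legal G k F) (hF' : Legal G k F'),
      (∀ x, (k : ℤ) ∣ F x - F' x) → (univ.filter (fun x => F x ≠ F' x)).card ≤ N →
      (G.intFlowGraph k).Reachable ⟨F, hF⟩ ⟨F', hF'⟩ := by
  intro N
  induction N with
  | zero =>
    intro F F' hF hF' _ hc
    have : F = F' := by
      funext x
      by_contra h
      have h1 : x ∈ univ.filter (fun x => F x ≠ F' x) := mem_filter.2 ⟨mem_univ _, h⟩
      rw [card_eq_zero.1 (Nat.le_zero.1 hc)] at h1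
      exact absurd h1 (notMem_empty _)
    subst this
    exact SimpleGraph.Reachable.refl _
  | succ N ih =>
    intro F F' hF hF' hdvd hc
    by_cases hFF : F = F'
    · subst hFF
      exact SimpleGraph.Reachable.refl _
    · obtain ⟨x₀, hx₀⟩ := Function.ne_iff.1 hFF
      have hk : (0 : ℤ) < k := lt_of_le_of_lt (abs_nonneg _) (hF.2 x₀).2
      choose h hh using hdvd
      have hflow : G.IsFlow h := by
        rw [isFlow_iff]
        intro v
        have h1 : net G (fun x => F x + (-1) * F' x) v = 0 := by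
          rw [net_add, (isFlow_iff G F).1 hF.1 v, (isFlow_iff G F').1 hF'.1 v]
          ring
        have h2 : net G (fun x => F x + (-1) * F' x) v = k * net G h v := by
          rw [net_eq, net_eq, mul_sum]
          apply sum_congr rfl
          intro x _
          have := hh x
          linear_combination (ic (G.tail x = v) - ic (G.head x = v)) * this
        rw [h2] at h1
        exact (mul_eq_zero.1 h1).resolve_left hk.ne'
      have hne : ∃ x, h x ≠ 0 := by
        refine ⟨x₀, fun h0 => hx₀ ?_⟩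
        have := hh x₀
        rw [h0, mul_zero] at this
        linarith
      have habs : ∀ x, |h x| < 2 := by
        intro x
        have h1 : |F x - F' x| < 2 * k := by
          have := abs_sub (F x) (F' x)
          have := (hF.2 x).2
          have := (hF'.2 x).2
          linarith
        rw [hh x, abs_mul, abs_of_pos hk, mul_comm] at h1
        exact lt_of_mul_lt_mul_right h1 hk.le
      obtain ⟨n, v, e, s, hn, hC, hpos⟩ := exists_cycle_of_flow G h hflow hne
      have : NeZero n := ⟨by omega⟩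
      have hs : ∀ i, h (e i) = s i := by
        intro i
        have h1 := hpos i
        have h2 := abs_lt.1 (habs (e i))
        rcases hC.2.2 i with ⟨h3, -⟩ | ⟨h3, -⟩
        · rw [h3] at h1 ⊢
          omega
        · rw [h3] at h1 ⊢
          omega
      obtain ⟨F'', hF''⟩ : ∃ F'' : E → ℤ, F'' = fun x => F x + (-(k : ℤ)) * chi e s x := ⟨_, rfl⟩
      have hon : ∀ i, F'' (e i) = F' (e i) := by
        intro i
        rw [hF'']
        simp only
        rw [chi_e hC.2.1, ← hs i]
        linarith [hh (e i)]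
      have hoff : ∀ x, x ∉ Set.range e → F'' x = F x := by
        intro x hx
        rw [hF'']
        simp only
        rw [chi_not s hx]
        ring
      have hleg : Legal G k F'' := by
        refine ⟨by rw [hF'']; exact isFlow_add hF.1 hC.isFlow_chi _, ?_⟩
        intro x
        by_cases hx : x ∈ Set.range e
        · obtain ⟨i, rfl⟩ := hx
          rw [hon i]
          exact hF'.2 _
        · rw [hoff x hx]
          exact hF.2 x
      have hneq : ∀ i, F (e i) ≠ F' (e i) := by
        intro i h1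
        have h2 := hh (e i)
        rw [h1, sub_self] at h2
        have h3 := (mul_eq_zero.1 h2.symm).resolve_left hk.ne'
        have h4 := hpos i
        rw [h3, mul_zero] at h4
        exact lt_irrefl _ h4
      have hadj : (G.intFlowGraph k).Adj ⟨F, hF⟩ ⟨F'', hleg⟩ := by
        apply adj_of hn hC
        · intro i
          rw [hon i]
          exact hneq i
        · intro x hx
          exact (hoff x hx).symm
      refine hadj.reachable.trans (ih F'' F' hleg hF' ?_ ?_)
      · intro x
        by_cases hx : x ∈ Set.range e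
        · obtain ⟨i, rfl⟩ := hx
          rw [hon i, sub_self]
          exact dvd_zero _
        · rw [hoff x hx]
          exact ⟨h x, hh x⟩
      · have hlt : (univ.filter (fun x => F'' x ≠ F' x)).card <
            (univ.filter (fun x => F x ≠ F' x)).card := by
          apply card_lt_card
          rw [ssubset_iff_of_subset]
          · refine ⟨e 0, mem_filter.2 ⟨mem_univ _, hneq 0⟩, ?_⟩
            intro h1
            exact (mem_filter.1 h1).2 (hon 0)
          · intro x hx
            have h1 := (mem_filter.1 hx).2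
            refine mem_filter.2 ⟨mem_univ _, ?_⟩
            by_cases hx : x ∈ Set.range e
            · obtain ⟨i, rfl⟩ := hx
              exact hneq i
            · rwa [hoff x hx] at h1
        omega

lemma sum_range_le {n : ℕ} [NeZero n] {e : ZMod n → E} (he : Function.Injective e) (T : E → ℤ)
    (hT : ∀ x, 0 ≤ T x) : ∑ i, T (e i) ≤ ∑ x, T x := by
  rw [← sum_image (s := univ) (g := e) (f := T) (fun i _ j _ hij => he hij)]
  exact sum_le_sum_of_subset_of_nonneg (subset_univ _) (fun x _ _ => hT x)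

lemma sum_range_eq {n : ℕ} [NeZero n] {e : ZMod n → E} (he : Function.Injective e) (T : E → ℤ)
    (hT : ∀ x, x ∉ Set.range e → T x = 0) : ∑ i, T (e i) = ∑ x, T x := by
  rw [← sum_image (s := univ) (g := e) (f := T) (fun i _ j _ hij => he hij)]
  apply sum_subset (subset_univ _)
  intro x _ hx
  apply hT
  rintro ⟨i, rfl⟩
  exact hx (mem_image_of_mem e (mem_univ i))

/-- residue of the flow along the cycle -/
noncomputable def res {n : ℕ} (k : ℕ) (r : E → ℤ) (e : ZMod n → E) (s : ZMod n → ℤ)
    (i : ZMod n) : ℤ := if s i = 1 then r (e i) else k - r (e i)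

/-- The numerical feasibility condition. -/
def Feas (k c m : ℤ) : Prop :=
  ∀ j w y : ℤ, 0 ≤ w → 0 ≤ y → w ≤ j → y ≤ j → w + y ≤ m → c * (w + y) < k + (c + 2) * j

theorem lift_step [Fintype V] (G : OrientedMultigraph V E) (k : ℕ) (r : E → ℤ)
    (hr : ∀ x, 0 < r x ∧ r x < k) (hnet : ∀ v, (k : ℤ) ∣ net G r v) {n : ℕ} [NeZero n]
    {v : ZMod n → V} {e : ZMod n → E} {s : ZMod n → ℤ} (hC : CycData G n v e s) (c : ℤ)
    (hc : 0 < c) (hck : c < k) (hne : ∀ i, res k r e s i + c ≠ k)
    (hfeas : Feas k c (∑ i, ic (k < res k r e s i + c))) :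
    ∃ F : E → ℤ, Legal G k F ∧ (∀ x, (k : ℤ) ∣ F x - r x) ∧
      Legal G k (fun x => F x + c * chi e s x) := by
  have hk : (0 : ℤ) < k := hc.trans hck
  obtain ⟨a, ha⟩ : ∃ a : ZMod n → ℤ, ∀ i, a i = res k r e s i := ⟨_, fun _ => rfl⟩
  simp only [← ha] at hne hfeas
  obtain ⟨W, hW⟩ : ∃ W : ZMod n → Prop, ∀ i, W i = (k < a i + c) := ⟨_, fun _ => rfl⟩
  simp only [← hW] at hfeas
  have ha1 : ∀ i, s i = 1 → a i = r (e i) := by
    intro i h; rw [ha]; exact if_pos h
  have ha2 : ∀ i, s i = -1 → a i = k - r (e i) := by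
    intro i h; rw [ha]; exact if_neg (by rw [h]; norm_num)
  have hapos : ∀ i, 0 < a i ∧ a i < k := by
    intro i
    have := hr (e i)
    rcases hC.2.2 i with ⟨h3, -⟩ | ⟨h3, -⟩
    · rw [ha1 i h3]; exact this
    · rw [ha2 i h3]; constructor <;> linarith
  choose b hb using hnet
  obtain ⟨Wm, hWm⟩ : ∃ Wm : E → Prop, ∀ x, Wm x ↔ ∃ i, e i = x ∧ s i = 1 ∧ W i :=
    ⟨_, fun _ => Iff.rfl⟩
  obtain ⟨Wp, hWp⟩ : ∃ Wp : E → Prop, ∀ x, Wp x ↔ ∃ i, e i = x ∧ s i = -1 ∧ W i :=
    ⟨_, fun _ => Iff.rfl⟩
  have hdisj : ∀ x, Wm x → ¬ Wp x := by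
    intro x h1 h2
    obtain ⟨i, hi, hi1, -⟩ := (hWm x).1 h1
    obtain ⟨j, hj, hj1, -⟩ := (hWp x).1 h2
    have : i = j := hC.2.1 (hi.trans hj.symm)
    rw [this, hj1] at hi1
    norm_num at hi1
  have hsb : ∑ w, b w = 0 := by
    have h1 : (k : ℤ) * ∑ w, b w = 0 := by
      rw [mul_sum, ← sum_net_univ G r]
      exact sum_congr rfl (fun w _ => (hb w).symm)
    exact (mul_eq_zero.1 h1).resolve_left hk.ne'
  have hcut : ∀ S : Finset V,
      ∑ x, (ic (G.tail x ∈ S ∧ G.head x ∉ S ∧ Wm x) + ic (G.head x ∈ S ∧ G.tail x ∉ S ∧ Wp x)) ≤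
        ∑ w ∈ S, b w + ∑ x, ic (G.head x ∈ S ∧ G.tail x ∉ S) := by
    intro S
    -- right side
    obtain ⟨T, hT⟩ : ∃ T : E → ℤ, ∀ x, T x = r x * ic (G.tail x ∈ S ∧ G.head x ∉ S) +
      (k - r x) * ic (G.head x ∈ S ∧ G.tail x ∉ S) := ⟨_, fun _ => rfl⟩
    have hT0 : ∀ x, 0 ≤ T x := by
      intro x
      rw [hT]
      have := hr x
      exact add_nonneg (mul_nonneg (by linarith) (ic_nonneg _))
        (mul_nonneg (by linarith) (ic_nonneg _))
    have hR : (k : ℤ) * (∑ w ∈ S, b w + ∑ x, ic (G.head x ∈ S ∧ G.tail x ∉ S)) = ∑ x, T x := by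
      have h1 : (k : ℤ) * ∑ w ∈ S, b w = ∑ w ∈ S, net G r w := by
        rw [mul_sum]
        exact sum_congr rfl (fun w _ => (hb w).symm)
      rw [mul_add, h1, sum_net, mul_sum, ← sum_add_distrib]
      apply sum_congr rfl
      intro x _
      rw [hT]
      unfold ic
      by_cases p : G.head x ∈ S <;> by_cases q : G.tail x ∈ S <;> simp [p, q]
      ring
    -- left side
    have hL : ∑ x, (ic (G.tail x ∈ S ∧ G.head x ∉ S ∧ Wm x) +
        ic (G.head x ∈ S ∧ G.tail x ∉ S ∧ Wp x)) =
        ∑ i, ic ((v i ∈ S ∧ v (i + 1) ∉ S) ∧ W i) := by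
      rw [← sum_range_eq hC.2.1]
      · apply sum_congr rfl
        intro i _
        rcases hC.2.2 i with ⟨h1, h2, h3⟩ | ⟨h1, h2, h3⟩
        · rw [h2, h3]
          have e1 : Wm (e i) ↔ W i := by
            rw [hWm]
            constructor
            · rintro ⟨j, hj, -, hj2⟩
              rwa [← hC.2.1 hj]
            · intro h; exact ⟨i, rfl, h1, h⟩
          have e2 : ¬ Wp (e i) := by
            rw [hWp]
            rintro ⟨j, hj, hj1, -⟩
            rw [hC.2.1 hj, h1] at hj1
            norm_num at hj1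
          rw [ic_false (p := v (i + 1) ∈ S ∧ v i ∉ S ∧ Wp (e i)) (fun h => e2 h.2.2), add_zero]
          congr 1
          rw [e1, and_assoc]
        · rw [h2, h3]
          have e1 : Wp (e i) ↔ W i := by
            rw [hWp]
            constructor
            · rintro ⟨j, hj, -, hj2⟩
              rwa [← hC.2.1 hj]
            · intro h; exact ⟨i, rfl, h1, h⟩
          have e2 : ¬ Wm (e i) := by
            rw [hWm]
            rintro ⟨j, hj, hj1, -⟩
            rw [hC.2.1 hj, h1] at hj1
            norm_num at hj1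
          rw [ic_false (p := v (i + 1) ∈ S ∧ v i ∉ S ∧ Wm (e i)) (fun h => e2 h.2.2), zero_add]
          congr 1
          rw [e1, and_assoc]
      · intro x hx
        have e1 : ¬ Wm x := by
          rw [hWm]; rintro ⟨j, hj, -⟩; exact hx ⟨j, hj⟩
        have e2 : ¬ Wp x := by
          rw [hWp]; rintro ⟨j, hj, -⟩; exact hx ⟨j, hj⟩
        rw [ic_false (fun h => e1 h.2.2), ic_false (fun h => e2 h.2.2), add_zero]
    have hTi : ∀ i, T (e i) = a i * ic (v i ∈ S ∧ v (i + 1) ∉ S) +
        (k - a i) * ic (v (i + 1) ∈ S ∧ v i ∉ S) := by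
      intro i
      rw [hT]
      rcases hC.2.2 i with ⟨h1, h2, h3⟩ | ⟨h1, h2, h3⟩
      · rw [h2, h3, ha1 i h1]
      · rw [h2, h3, ha2 i h1]; ring
    have hsum := sum_range_le hC.2.1 T hT0
    -- counts
    obtain ⟨j, hj⟩ : ∃ j : ℤ, j = ∑ i, ic (v i ∈ S ∧ v (i + 1) ∉ S) := ⟨_, rfl⟩
    have hj' : j = ∑ i, ic (v (i + 1) ∈ S ∧ v i ∉ S) := by
      have h1 : ∑ i, ic (v i ∈ S ∧ v (i + 1) ∉ S) - ∑ i, ic (v (i + 1) ∈ S ∧ v i ∉ S) =
          ∑ i, ic (v i ∈ S) - ∑ i, ic (v (i + 1) ∈ S) := by
        rw [← sum_sub_distrib, ← sum_sub_distrib]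
        apply sum_congr rfl
        intro i _
        unfold ic
        by_cases p : v i ∈ S <;> by_cases q : v (i + 1) ∈ S <;> simp [p, q]
      have h2 : ∑ i, ic (v (i + 1) ∈ S) = ∑ i, ic (v i ∈ S) :=
        Equiv.sum_comp (Equiv.addRight (1 : ZMod n)) (fun i => ic (v i ∈ S))
      rw [h2, sub_self, ← hj] at h1
      linarith
    obtain ⟨w, hw⟩ : ∃ w : ℤ, w = ∑ i, ic ((v i ∈ S ∧ v (i + 1) ∉ S) ∧ W i) := ⟨_, rfl⟩
    obtain ⟨y, hy⟩ : ∃ y : ℤ, y = ∑ i, ic ((v (i + 1) ∈ S ∧ v i ∉ S) ∧ W i) := ⟨_, rfl⟩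
    have hw0 : 0 ≤ w := by rw [hw]; exact sum_nonneg (fun _ _ => ic_nonneg _)
    have hy0 : 0 ≤ y := by rw [hy]; exact sum_nonneg (fun _ _ => ic_nonneg _)
    have hwj : w ≤ j := by
      rw [hw, hj]
      apply sum_le_sum
      intro i _
      unfold ic
      by_cases p : v i ∈ S ∧ v (i + 1) ∉ S <;> by_cases q : W i <;> simp [p, q]
    have hyj : y ≤ j := by
      rw [hy, hj']
      apply sum_le_sum
      intro i _
      unfold ic
      by_cases p : v (i + 1) ∈ S ∧ v i ∉ S <;> by_cases q : W i <;> simp [p, q]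
    have hwy : w + y ≤ ∑ i, ic (W i) := by
      rw [hw, hy, ← sum_add_distrib]
      apply sum_le_sum
      intro i _
      unfold ic
      by_cases p : v (i + 1) ∈ S <;> by_cases p' : v i ∈ S <;> by_cases q : W i <;> simp [p, p', q]
    have hmain := hfeas j w y hw0 hy0 hwj hyj hwy
    have hbig : (k - c) * w + j + ((c + 1) * j - c * y) ≤ ∑ i, T (e i) := by
      have h1 : (k - c) * w + j + ((c + 1) * j - c * y) =
          ∑ i, ((k - c) * ic ((v i ∈ S ∧ v (i + 1) ∉ S) ∧ W i) + ic (v i ∈ S ∧ v (i + 1) ∉ S) +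
            ((c + 1) * ic (v (i + 1) ∈ S ∧ v i ∉ S) -
              c * ic ((v (i + 1) ∈ S ∧ v i ∉ S) ∧ W i))) := by
        rw [sum_add_distrib, sum_add_distrib, sum_sub_distrib, ← mul_sum, ← mul_sum, ← mul_sum,
          ← hw, ← hy, ← hj, ← hj']
      rw [h1]
      apply sum_le_sum
      intro i _
      rw [hTi]
      have h2 := hapos i
      have h3 := hne i
      have h4 := hW i
      by_cases q : W i
      · have h5 : k < a i + c := by rw [← h4]; exact q
        unfold ic
        by_cases p : v (i + 1) ∈ S <;> by_cases p' : v i ∈ S <;> simp [p, p', q] <;> linarith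
      · have h5 : ¬ (k < a i + c) := by rw [← h4]; exact q
        have h6 : a i + c < k := lt_of_le_of_ne (not_lt.1 h5) h3
        unfold ic
        by_cases p : v (i + 1) ∈ S <;> by_cases p' : v i ∈ S <;> simp [p, p', q] <;> linarith
    rw [hL, ← hw]
    have hfin : (k : ℤ) * w < k * (∑ w ∈ S, b w + ∑ x, ic (G.head x ∈ S ∧ G.tail x ∉ S)) + k := by
      rw [hR]
      nlinarith
    have hfin2 : w < (∑ w ∈ S, b w + ∑ x, ic (G.head x ∈ S ∧ G.tail x ∉ S)) + 1 := by
      have : (k : ℤ) * w <
          k * ((∑ w ∈ S, b w + ∑ x, ic (G.head x ∈ S ∧ G.tail x ∉ S)) + 1) := by linarith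
      exact lt_of_mul_lt_mul_left this hk.le
    linarith [Int.lt_add_one_iff.1 hfin2]
  obtain ⟨x, hx01, hxm, hxp, hxnet⟩ := orient G b Wm Wp hdisj hsb hcut
  have hflow : G.IsFlow (fun z => r z + (-(k : ℤ)) * x z) := by
    rw [isFlow_iff]
    intro w
    rw [net_add, hxnet, hb w]
    ring
  refine ⟨fun z => r z + (-(k : ℤ)) * x z, ⟨hflow, ?_⟩, ?_, ⟨isFlow_add hflow hC.isFlow_chi c, ?_⟩⟩
  · intro z
    have h1 := hr z
    rcases hx01 z with h2 | h2
    · simp only [h2]
      constructor
      · linarith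
      · rw [abs_lt]; constructor <;> linarith
    · simp only [h2]
      constructor
      · linarith
      · rw [abs_lt]; constructor <;> linarith
  · intro z
    exact ⟨- x z, by ring⟩
  · intro z
    simp only
    by_cases hz : z ∈ Set.range e
    · obtain ⟨i, rfl⟩ := hz
      rw [chi_e hC.2.1]
      have h1 := hapos i
      have h3 := hne i
      have h4 := hW i
      rcases hC.2.2 i with ⟨h5, -⟩ | ⟨h5, -⟩
      · rw [h5]
        rw [ha1 i h5] at h1 h3 h4
        rcases hx01 (e i) with h6 | h6
        · rw [h6]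
          have h7 : ¬ W i := by
            intro h8
            have := hxm (e i) ((hWm _).2 ⟨i, rfl, h5, h8⟩)
            rw [h6] at this
            norm_num at this
          rw [h4, not_lt] at h7
          have h8 := lt_of_le_of_ne h7 h3
          constructor
          · linarith
          · rw [abs_lt]; constructor <;> linarith
        · rw [h6]
          constructor
          · intro h7
            apply h3
            linarith
          · rw [abs_lt]; constructor <;> linarith
      · rw [h5]
        rw [ha2 i h5] at h1 h3 h4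
        rcases hx01 (e i) with h6 | h6
        · rw [h6]
          constructor
          · intro h7
            apply h3
            linarith
          · rw [abs_lt]; constructor <;> linarith
        · rw [h6]
          have h7 : ¬ W i := by
            intro h8
            have := hxp (e i) ((hWp _).2 ⟨i, rfl, h5, h8⟩)
            rw [h6] at this
            norm_num at this
          rw [h4, not_lt] at h7
          have h8 := lt_of_le_of_ne h7 h3
          constructor
          · linarith
          · rw [abs_lt]; constructor <;> linarith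
    · rw [chi_not s hz]
      have h1 := hr z
      rcases hx01 z with h2 | h2
      · simp only [h2]
        constructor
        · linarith
        · rw [abs_lt]; constructor <;> linarith
      · simp only [h2]
        constructor
        · linarith
        · rw [abs_lt]; constructor <;> linarith

end Pool.Agent.H28.Flow
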