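import Mathlib
import Pool.Agent.H28.Flow.Defs
import Pool.Agent.H28.Flow.Orient
import Pool.Agent.H28.Flow.Cycle
import Pool.Agent.H28.Flow.Lift

set_option autoImplicit false

namespace Pool.Agent.H28.Flow

open Finset
open scoped Classical

variable {V E : Type} [Fintype E] [Fintype V]

omit [Fintype V] in
lemma reduce_eq_iff (G : OrientedMultigraph V E) (k : ℕ) (F : E → ℤ) (hF : Legal G k F)
    (f : {f : E → ZMod k // G.IsFlow f ∧ ∀ e, f e ≠ 0}) :
    G.reduce k ⟨F, hF⟩ = f ↔ ∀ x, (F x : ZMod k) = f.1 x := by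
  rw [Subtype.ext_iff]
  exact funext_iff

/-- Lifting one step along a given orientation of the cycle. -/
theorem lift_adj (G : OrientedMultigraph V E) (k : ℕ) (hk : 2 ≤ k)
    (f g : {f : E → ZMod k // G.IsFlow f ∧ ∀ e, f e ≠ 0}) {n : ℕ} [NeZero n] (hn : 2 ≤ n)
    {v : ZMod n → V} {e : ZMod n → E} {s : ZMod n → ℤ} (hC : CycData G n v e s)
    (c₀ : ZMod k) (hc₀ : c₀ ≠ 0) (hcon : ∀ i, s i • (g.1 - f.1) (e i) = c₀)
    (hoff : ∀ x, x ∉ Set.range e → f.1 x = g.1 x)
    (hfeas : Feas k c₀.val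
      (∑ i, ic (k < res k (fun x => ((f.1 x).val : ℤ)) e s i + c₀.val))) :
    ∃ (F F' : E → ℤ) (hF : Legal G k F) (hF' : Legal G k F'),
      (G.intFlowGraph k).Adj ⟨F, hF⟩ ⟨F', hF'⟩ ∧ G.reduce k ⟨F, hF⟩ = f ∧
        G.reduce k ⟨F', hF'⟩ = g := by
  have : NeZero k := ⟨by omega⟩
  have : Fact (1 < k) := ⟨by omega⟩
  obtain ⟨r, hr⟩ : ∃ r : E → ℤ, r = fun x => ((f.1 x).val : ℤ) := ⟨_, rfl⟩
  rw [← hr] at hfeas
  have hrf : ∀ x, (r x : ZMod k) = f.1 x := by
    intro x
    rw [hr]
    simp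
  have hr0 : ∀ x, 0 < r x ∧ r x < k := by
    intro x
    rw [hr]
    simp only
    constructor
    · have h1 : (f.1 x).val ≠ 0 := by
        rw [Ne, ZMod.val_eq_zero]
        exact f.2.2 x
      exact_mod_cast Nat.pos_of_ne_zero h1
    · exact_mod_cast ZMod.val_lt _
  have hnet : ∀ w, (k : ℤ) ∣ net G r w := by
    intro w
    rw [← ZMod.intCast_zmod_eq_zero_iff_dvd]
    have h1 := (isFlow_iff G f.1).1 f.2.1 w
    rw [← h1]
    unfold net
    push_cast
    simp only [hrf]
  have hcpos : (0 : ℤ) < c₀.val := by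
    have h1 : c₀.val ≠ 0 := by rwa [Ne, ZMod.val_eq_zero]
    exact_mod_cast Nat.pos_of_ne_zero h1
  have hck : (c₀.val : ℤ) < k := by exact_mod_cast ZMod.val_lt _
  have hss : ∀ i, s i * s i = 1 := by
    intro i
    rcases hC.2.2 i with ⟨h5, -⟩ | ⟨h5, -⟩ <;> rw [h5] <;> norm_num
  have hres : ∀ i, ((res k r e s i : ℤ) : ZMod k) = s i • f.1 (e i) := by
    intro i
    unfold res
    rcases hC.2.2 i with ⟨h5, -⟩ | ⟨h5, -⟩
    · rw [if_pos h5, h5, hrf, one_smul]
    · rw [if_neg (by rw [h5]; norm_num), h5]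
      push_cast
      rw [hrf]
      simp
  have hdiff : ∀ i, g.1 (e i) = f.1 (e i) + s i • c₀ := by
    intro i
    rw [← hcon i, smul_smul, hss i, one_smul]
    simp
  have hne : ∀ i, res k r e s i + (c₀.val : ℤ) ≠ k := by
    intro i h1
    have h2 := congrArg (Int.cast : ℤ → ZMod k) h1
    push_cast at h2
    rw [hres i] at h2
    simp only [ZMod.natCast_zmod_val, CharP.cast_eq_zero] at h2
    have h3 : s i • g.1 (e i) = 0 := by
      rw [hdiff i, smul_add, smul_smul, hss i, one_smul]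
      exact h2
    have h4 : g.1 (e i) = 0 := by
      have h5 := congrArg (fun z => s i • z) h3
      simp only [smul_smul, hss i, one_smul, smul_zero] at h5
      exact h5
    exact g.2.2 _ h4
  obtain ⟨F, hF, hFr, hF'⟩ := lift_step G k r hr0 hnet hC c₀.val hcpos hck hne hfeas
  have hFf : ∀ x, (F x : ZMod k) = f.1 x := by
    intro x
    have h1 := (ZMod.intCast_zmod_eq_zero_iff_dvd _ _).2 (hFr x)
    push_cast at h1
    rw [sub_eq_zero] at h1
    rw [h1, hrf]
  refine ⟨F, fun x => F x + c₀.val * chi e s x, hF, hF', ?_, ?_, ?_⟩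
  · apply adj_of hn hC
    · intro i h1
      rw [chi_e hC.2.1] at h1
      have h2 : (c₀.val : ℤ) * s i = 0 := by linarith
      rcases mul_eq_zero.1 h2 with h3 | h3
      · exact hcpos.ne' h3
      · have := hss i
        rw [h3] at this
        norm_num at this
    · intro x hx
      rw [chi_not s hx]
      ring
  · rw [reduce_eq_iff]
    exact hFf
  · rw [reduce_eq_iff]
    intro x
    by_cases hx : x ∈ Set.range e
    · obtain ⟨i, rfl⟩ := hx
      rw [chi_e hC.2.1, hdiff i]
      push_cast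
      rw [hFf]
      simp [zsmul_eq_mul, mul_comm]
    · rw [chi_not s hx, ← hoff x hx]
      push_cast
      rw [hFf]
      simp

/-- Lifting one step of the group flow graph. -/
theorem lift_adj' (G : OrientedMultigraph V E) (k : ℕ) (hk : 2 ≤ k)
    (hgood : k ≤ 5 ∨ ∀ S : Set E, G.IsCycleEdgeSet S → S.ncard ≤ 9)
    (f g : {f : E → ZMod k // G.IsFlow f ∧ ∀ e, f e ≠ 0})
    (hadj : (G.groupFlowGraph (ZMod k)).Adj f g) :
    ∃ (F F' : E → ℤ) (hF : Legal G k F) (hF' : Legal G k F'),
      (G.intFlowGraph k).Adj ⟨F, hF⟩ ⟨F', hF'⟩ ∧ G.reduce k ⟨F, hF⟩ = f ∧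
        G.reduce k ⟨F', hF'⟩ = g := by
  have : NeZero k := ⟨by omega⟩
  have : Fact (1 < k) := ⟨by omega⟩
  change G.IsCycleEdgeSet {e | (f.1 - g.1) e ≠ 0} at hadj
  have hcyc := hadj
  obtain ⟨n, v, e, s, hn, hC, hS⟩ := exists_cycData G _ hadj
  have : NeZero n := ⟨by omega⟩
  have hoff : ∀ x, x ∉ Set.range e → f.1 x = g.1 x := by
    intro x hx
    rw [← hS] at hx
    simp only [Set.mem_ofPred_eq, Pi.sub_apply, ne_eq, not_not, sub_eq_zero] at hx
    exact hx
  have hflow : G.IsFlow (g.1 - f.1) := by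
    rw [isFlow_iff]
    intro w
    have h1 := (isFlow_iff G f.1).1 f.2.1 w
    have h2 := (isFlow_iff G g.1).1 g.2.1 w
    unfold net at *
    simp only [Pi.sub_apply, sum_sub_distrib]
    rw [sub_eq_zero] at h1 h2 ⊢
    rw [h1, h2]
  obtain ⟨c₀, hc₀⟩ := hC.const (g.1 - f.1) hflow (by
    intro x hx
    rw [Pi.sub_apply, hoff x hx, sub_self])
  have hss : ∀ i, s i * s i = 1 := by
    intro i
    rcases hC.2.2 i with ⟨h5, -⟩ | ⟨h5, -⟩ <;> rw [h5] <;> norm_num
  have hc0 : c₀ ≠ 0 := by
    intro h0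
    have h1 := hc₀ 0
    rw [h0] at h1
    have h2 := congrArg (fun z => s 0 • z) h1
    simp only [smul_smul, hss, one_smul, smul_zero] at h2
    have h3 : e 0 ∈ {e | (f.1 - g.1) e ≠ 0} := by rw [hS]; exact ⟨0, rfl⟩
    simp only [Set.mem_ofPred_eq, Pi.sub_apply, ne_eq, sub_eq_zero] at h3
    rw [Pi.sub_apply, sub_eq_zero] at h2
    exact h3 h2.symm
  have hneg : ((-c₀).val : ℤ) = k - c₀.val := by
    have : NeZero c₀ := ⟨hc0⟩
    have h1 := ZMod.val_neg_of_ne_zero c₀
    have h2 := ZMod.val_lt c₀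
    rw [h1]
    push_cast [h2.le]
    ring
  have hcpos : (0 : ℤ) < c₀.val := by
    have h1 : c₀.val ≠ 0 := by rwa [Ne, ZMod.val_eq_zero]
    exact_mod_cast Nat.pos_of_ne_zero h1
  have hck : (c₀.val : ℤ) < k := by exact_mod_cast ZMod.val_lt _
  -- the two directions
  have hdir1 := lift_adj G k hk f g hn hC c₀ hc0 hc₀ hoff
  have hrange : Set.range (fun i : ZMod n => e (-i - 1)) = Set.range e := by
    ext x
    constructor
    · rintro ⟨i, rfl⟩
      exact ⟨_, rfl⟩
    · rintro ⟨i, rfl⟩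
      refine ⟨-i - 1, ?_⟩
      simp only
      congr 1
      ring
  have hdir2 := lift_adj G k hk f g hn hC.reverse (-c₀) (neg_ne_zero.2 hc0)
    (by
      intro i
      rw [← hc₀ (-i - 1), neg_smul])
    (by
      rw [hrange]
      exact hoff)
  rw [hneg] at hdir2
  by_cases hk5 : k ≤ 5
  · have hsmall : ∀ c m : ℤ, 0 < c → c ≤ 2 → Feas k c m := by
      intro c m h1 h2 j w y h3 h4 h5 h6 h7
      have h8 : (0 : ℤ) < k := by exact_mod_cast (by omega : 0 < k)
      nlinarith
    rcases Nat.lt_or_ge c₀.val 3 with h1 | h1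
    · exact hdir1 (hsmall _ _ hcpos (by exact_mod_cast (by omega : c₀.val ≤ 2)))
    · apply hdir2
      apply hsmall
      · linarith
      · have : (k : ℤ) ≤ 5 := by exact_mod_cast hk5
        have : (3 : ℤ) ≤ c₀.val := by exact_mod_cast h1
        linarith
  · have h9 := (hgood.resolve_left hk5) _ hcyc
    rw [hS] at h9
    have hcard : (Set.range e).ncard = n := by
      rw [← Set.image_univ, Set.ncard_image_of_injective _ hC.2.1, Set.ncard_univ]
      simp
    rw [hcard] at h9
    obtain ⟨c, hc⟩ : ∃ c : ℤ, c = c₀.val := ⟨_, rfl⟩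
    rw [← hc] at hdir1 hdir2 hcpos hck
    obtain ⟨r, hr⟩ : ∃ r : E → ℤ, r = fun x => ((f.1 x).val : ℤ) := ⟨_, rfl⟩
    rw [← hr] at hdir1 hdir2
    obtain ⟨mW, hmW⟩ : ∃ mW : ℤ, mW = ∑ i, ic (k < res k r e s i + c) := ⟨_, rfl⟩
    obtain ⟨mN, hmN⟩ : ∃ mN : ℤ, mN = ∑ i, ic (k < res k r (fun i : ZMod n => e (-i - 1))
      (fun i : ZMod n => - s (-i - 1)) i + (k - c)) := ⟨_, rfl⟩
    rw [← hmW] at hdir1
    rw [← hmN] at hdir2
    have hsum : mW + mN ≤ 9 := by
      have h1 : mN = ∑ i, ic (k < (k - res k r e s i) + (k - c)) := by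
        rw [hmN]
        have h2 : ∀ i : ZMod n, res k r (fun i : ZMod n => e (-i - 1))
            (fun i : ZMod n => - s (-i - 1)) i = k - res k r e s (-i - 1) := by
          intro i
          unfold res
          rcases hC.2.2 (-i - 1) with ⟨h5, -⟩ | ⟨h5, -⟩
          · simp only [h5]; norm_num
          · simp only [h5]; norm_num
        simp only [h2]
        have h3 : ∀ i : ZMod n, -i - 1 = (Equiv.subLeft (-1 : ZMod n)) i := by
          intro i
          simp [Equiv.subLeft_apply]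
          ring
        simp only [h3]
        exact Equiv.sum_comp (Equiv.subLeft (-1 : ZMod n))
          (fun i => ic (k < (k - res k r e s i) + (k - c)))
      have h4 : mW + mN ≤ ∑ i : ZMod n, (1 : ℤ) := by
        rw [h1, hmW, ← sum_add_distrib]
        apply sum_le_sum
        intro i _
        by_cases h5 : (k : ℤ) < res k r e s i + c
        · rw [ic_true h5, ic_false (by linarith)]
          norm_num
        · rw [ic_false h5]
          unfold ic
          split_ifs <;> norm_num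
      have h6 : ∑ i : ZMod n, (1 : ℤ) = n := by simp
      rw [h6] at h4
      have : (n : ℤ) ≤ 9 := by exact_mod_cast h9
      linarith
    have hmW0 : 0 ≤ mW := by rw [hmW]; exact sum_nonneg (fun _ _ => ic_nonneg _)
    have hmN0 : 0 ≤ mN := by rw [hmN]; exact sum_nonneg (fun _ _ => ic_nonneg _)
    have hf3 : ∀ c m : ℤ, 0 < c → c < k → m ≤ 3 → Feas k c m := by
      intro c m h1 h2 h3 j w y h4 h5 h6 h7 h8
      have hj : 0 ≤ j := by linarith
      have hmul : ∀ t, t ≤ j → (c + 2) * t ≤ (c + 2) * j :=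
        fun t ht => mul_le_mul_of_nonneg_left ht (by linarith)
      rcases (by omega : w + y = 0 ∨ w + y = 1 ∨ w + y = 2 ∨ w + y = 3) with h | h | h | h
      · rw [h]; have := hmul 0 hj
        linarith
      · rw [h]; have := hmul 1 (by omega)
        linarith
      · rw [h]; have := hmul 1 (by omega)
        linarith
      · rw [h]; have := hmul 2 (by omega)
        linarith
    have hf5 : ∀ c m : ℤ, 0 < c → c < k → m ≤ 5 → 2 * c < k + 4 → Feas k c m := by
      intro c m h1 h2 h3 h9 j w y h4 h5 h6 h7 h8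
      have hj : 0 ≤ j := by linarith
      have hmul : ∀ t, t ≤ j → (c + 2) * t ≤ (c + 2) * j :=
        fun t ht => mul_le_mul_of_nonneg_left ht (by linarith)
      rcases (by omega : w + y = 0 ∨ w + y = 1 ∨ w + y = 2 ∨ w + y = 3 ∨ w + y = 4 ∨
        w + y = 5) with h | h | h | h | h | h
      · rw [h]; have := hmul 0 hj
        linarith
      · rw [h]; have := hmul 1 (by omega)
        linarith
      · rw [h]; have := hmul 1 (by omega)
        linarith
      · rw [h]; have := hmul 2 (by omega)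
        linarith
      · rw [h]; have := hmul 2 (by omega)
        linarith
      · rw [h]; have := hmul 3 (by omega)
        linarith
    by_cases h1 : mW ≤ 3
    · exact hdir1 (hf3 _ _ hcpos hck h1)
    · by_cases h2 : mN ≤ 3
      · exact hdir2 (hf3 _ _ (by linarith) (by linarith) h2)
      · by_cases h3 : 2 * c < k + 4
        · exact hdir1 (hf5 _ _ hcpos hck (by omega) h3)
        · exact hdir2 (hf5 _ _ (by linarith) (by linarith) (by omega) (by omega))

/-- Reachability transfer. -/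
theorem reachable_iff (G : OrientedMultigraph V E) (k : ℕ) (hk : 2 ≤ k)
    (hgood : k ≤ 5 ∨ ∀ S : Set E, G.IsCycleEdgeSet S → S.ncard ≤ 9)
    (F F' : {f : E → ℤ // G.IsFlow f ∧ ∀ e, f e ≠ 0 ∧ |f e| < k}) :
    (G.intFlowGraph k).Reachable F F' ↔
      (G.groupFlowGraph (ZMod k)).Reachable (G.reduce k F) (G.reduce k F') := by
  have hfib : ∀ (F F' : {f : E → ℤ // G.IsFlow f ∧ ∀ e, f e ≠ 0 ∧ |f e| < k}),
      G.reduce k F = G.reduce k F' → (G.intFlowGraph k).Reachable F F' := by
    intro F F' h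
    refine fibre G k _ F.1 F'.1 F.2 F'.2 ?_ le_rfl
    intro x
    have h1 := congrFun (congrArg Subtype.val h) x
    change ((F.1 x : ℤ) : ZMod k) = ((F'.1 x : ℤ) : ZMod k) at h1
    rw [← ZMod.intCast_zmod_eq_zero_iff_dvd]
    push_cast
    rw [h1, sub_self]
  constructor
  · rintro ⟨p⟩
    induction p with
    | nil => exact SimpleGraph.Reachable.refl _
    | @cons a b c hab p ih =>
      refine SimpleGraph.Reachable.trans ?_ ih
      change G.IsCycleEdgeSet {e | (a.1 - b.1) e ≠ 0} at hab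
      have hcyc := hab
      obtain ⟨n, v, e, s, hn, hC, hS⟩ := exists_cycData G _ hab
      have : NeZero n := ⟨by omega⟩
      have hoff : ∀ x, x ∉ Set.range e → a.1 x - b.1 x = 0 := by
        intro x hx
        rw [← hS] at hx
        simp only [Set.mem_ofPred_eq, Pi.sub_apply, ne_eq, not_not] at hx
        exact hx
      have hflow : G.IsFlow (fun x => a.1 x - b.1 x) := by
        have := isFlow_add a.2.1 b.2.1 (-1)
        convert this using 2
        ring
      obtain ⟨c₀, hc₀⟩ := hC.const _ hflow hoff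
      have hdc : ∀ i, ((k : ℤ) ∣ a.1 (e i) - b.1 (e i)) ↔ (k : ℤ) ∣ c₀ := by
        intro i
        rw [← hc₀ i]
        rcases hC.2.2 i with ⟨h5, -⟩ | ⟨h5, -⟩
        · rw [h5, one_smul]
        · rw [h5, neg_smul, one_smul, dvd_neg]
      by_cases hd : (k : ℤ) ∣ c₀
      · have : G.reduce k a = G.reduce k b := by
          apply Subtype.ext
          funext x
          change ((a.1 x : ℤ) : ZMod k) = ((b.1 x : ℤ) : ZMod k)
          rw [← sub_eq_zero, ← Int.cast_sub, ZMod.intCast_zmod_eq_zero_iff_dvd]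
          by_cases hx : x ∈ Set.range e
          · obtain ⟨i, rfl⟩ := hx
            exact (hdc i).2 hd
          · rw [hoff x hx]; exact dvd_zero _
        rw [this]
      · apply SimpleGraph.Adj.reachable
        change G.IsCycleEdgeSet {x | ((G.reduce k a).1 - (G.reduce k b).1) x ≠ 0}
        convert hcyc using 1
        rw [hS]
        ext x
        simp only [Set.mem_ofPred_eq, Pi.sub_apply, ne_eq]
        change ¬ (((a.1 x : ℤ) : ZMod k) - ((b.1 x : ℤ) : ZMod k) = 0) ↔ _
        rw [← Int.cast_sub, ZMod.intCast_zmod_eq_zero_iff_dvd]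
        constructor
        · intro h
          by_contra hx
          rw [hoff x hx] at h
          exact h (dvd_zero _)
        · rintro ⟨i, rfl⟩
          rw [hdc i]
          exact hd
  · intro h
    obtain ⟨f, hf⟩ : ∃ f, f = G.reduce k F := ⟨_, rfl⟩
    obtain ⟨f', hf'⟩ : ∃ f', f' = G.reduce k F' := ⟨_, rfl⟩
    rw [← hf, ← hf'] at h
    obtain ⟨p⟩ := h
    induction p generalizing F with
    | nil => exact hfib F F' (hf.symm.trans hf')
    | @cons a b c hab p ih =>
      obtain ⟨F₁, F₂, hF₁, hF₂, hadj, hr1, hr2⟩ := lift_adj' G k hk hgood a b hab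
      have h1 := hfib F ⟨F₁, hF₁⟩ (hf.symm.trans hr1.symm)
      exact (h1.trans hadj.reachable).trans (ih _ hr2.symm hf')

end Pool.Agent.H28.Flow
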